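import Mathlib
import Pool.Agent.Helper477.RR.Conv

set_option autoImplicit false

open scoped NNReal

namespace Pool.Agent.Results.MP_f91407_an.PowerMaps

/-- The polynomial `∑ a_j z^j` with coefficient vector `(a_0, …, a_d)`, `a_j ≥ 0`, belongs to
`P_d`: all of its complex zeros are real (so the zero polynomial is not in `P_d`). -/
def InP (d : ℕ) (a : Fin (d + 1) → ℝ≥0) : Prop :=
  ∀ z : ℂ, ∑ j : Fin (d + 1), ((a j : ℝ) : ℂ) * z ^ (j : ℕ) = 0 → z.im = 0

/-- The property of Q1: `F 0 = 0`, and applying `F` entrywise to the coefficient vector maps `P_d`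
into `P_d`, for every `d ≥ 0`. -/
def Preserves (F : ℝ≥0 → ℝ≥0) : Prop :=
  F 0 = 0 ∧ ∀ (d : ℕ) (a : Fin (d + 1) → ℝ≥0), InP d a → InP d (fun j => F (a j))

open Pool.Agent.Helper477.RR in
theorem pres_of_preserves {F : ℝ≥0 → ℝ≥0} (hF : Preserves F) :
    Pres (fun x : ℝ => ((F x.toNNReal : ℝ≥0) : ℝ)) := by
  refine ⟨fun x _ => NNReal.coe_nonneg _, ?_⟩
  intro d a ha
  refine ⟨fun j _ => NNReal.coe_nonneg _, ?_⟩
  have h1 : InP d (fun j : Fin (d+1) => (a j).toNNReal) := by
    intro z hz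
    apply ha.2 z
    rw [← hz, Finset.sum_range]
    apply Finset.sum_congr rfl
    intro j _
    rw [Real.coe_toNNReal _ (ha.1 j (by omega))]
  have h2 := hF.2 d _ h1
  intro z hz
  apply h2 z
  rw [← hz, Finset.sum_range]

open Pool.Agent.Helper477.RR in
theorem preserves_of_pres {F : ℝ≥0 → ℝ≥0} (h0 : F 0 = 0)
    (hF : Pres (fun x : ℝ => ((F x.toNNReal : ℝ≥0) : ℝ))) : Preserves F := by
  refine ⟨h0, ?_⟩
  intro d a ha z hz
  have h1 : Pool.Agent.Helper477.RR.InP d
      (fun j => if h : j < d + 1 then ((a ⟨j, h⟩ : ℝ≥0) : ℝ) else 0) := by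
    refine ⟨?_, ?_⟩
    · intro j _
      dsimp only
      split_ifs
      · exact NNReal.coe_nonneg _
      · exact le_rfl
    · intro z hz
      apply ha z
      rw [← hz, Finset.sum_range]
      apply Finset.sum_congr rfl
      intro j _
      beta_reduce
      rw [dif_pos j.2]
  have h2 := (hF.pres d _ h1).2 z
  apply h2
  rw [← hz, Finset.sum_range]
  apply Finset.sum_congr rfl
  intro j _
  beta_reduce
  rw [dif_pos j.2, Real.toNNReal_coe]

/-- Every map with the property of Q1 is `x ↦ c x^α` with `c > 0` and a real exponent `α ≥ 1`;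
conversely, all maps `x ↦ c x^n` with `c > 0` and an integer `n ≥ 1` have the property. -/
theorem result :
    (∀ F : ℝ≥0 → ℝ≥0, Preserves F →
      ∃ c : ℝ≥0, 0 < c ∧ ∃ α : ℝ, 1 ≤ α ∧ ∀ x, F x = c * x ^ α) ∧
    (∀ c : ℝ≥0, 0 < c → ∀ n : ℕ, 1 ≤ n → Preserves (fun x => c * x ^ n)) := by
  constructor
  · intro F hF
    have hP := pres_of_preserves hF
    obtain ⟨c, α, hc, hα, h⟩ := hP.classify'
    refine ⟨c.toNNReal, Real.toNNReal_pos.2 hc, α, hα, ?_⟩
    intro x
    have hx0 : (0 : ℝ≥0) ≤ x := x.2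
    rcases eq_or_lt_of_le hx0 with hx | hx
    · rw [← hx, hF.1, NNReal.zero_rpow (by linarith), mul_zero]
    · have h1 := h x (by exact_mod_cast hx)
      rw [Real.toNNReal_coe] at h1
      apply NNReal.coe_injective
      rw [NNReal.coe_mul, NNReal.coe_rpow, Real.coe_toNNReal _ hc.le]
      exact h1
  · intro c hc n hn
    apply preserves_of_pres
    · show c * 0 ^ n = 0
      rw [zero_pow (by omega), mul_zero]
    · have h1 := Pool.Agent.Helper477.RR.pres_pow (c := (c : ℝ)) (by exact_mod_cast hc) hn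
      refine ⟨fun x _ => NNReal.coe_nonneg _, ?_⟩
      intro d a ha
      have h2 := h1.pres d a ha
      refine ⟨fun j _ => NNReal.coe_nonneg _, ?_⟩
      intro z hz
      apply h2.2 z
      rw [← hz]
      apply Finset.sum_congr rfl
      intro j hj
      have hj' := Finset.mem_range.1 hj
      congr 2
      beta_reduce
      rw [NNReal.coe_mul, NNReal.coe_pow, Real.coe_toNNReal _ (ha.1 j (by omega))]

end Pool.Agent.Results.MP_f91407_an.PowerMaps
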